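import Pool.Agent.Helper56.HS.Stm

/-! Package IND of project HS: independence over the closure of an arbitrary set. -/

set_option autoImplicit false

namespace Pool.Agent.Helper93.HS

open Set Pool.Agent.Helper35.EM Pool.Agent.Helper56.HS

theorem indep_union (S : Set ℂ) (I : Finset ℂ) (h : IndS S (I : Set ℂ)) {J : Set ℂ}
    (hJ : M.IsBasis J S) : M.Indep (J ∪ (I : Set ℂ)) := by
  classical
  have key : ∀ I' : Finset ℂ, I' ⊆ I → M.Indep (J ∪ (I' : Set ℂ)) := by
    intro I'
    induction I' using Finset.induction_on with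
    | empty =>
      intro _
      rw [Finset.coe_empty, Set.union_empty]
      exact hJ.indep
    | insert e I' he ih =>
      intro hs
      have h1 := ih ((Finset.subset_insert e I').trans hs)
      have heI : e ∈ I := hs (Finset.mem_insert_self e I')
      have h2 : e ∉ M.closure (J ∪ (I' : Set ℂ)) := by
        intro hc
        refine h e (Finset.mem_coe.2 heI) ?_
        refine M.closure_subset_closure ?_ hc
        refine Set.union_subset_union hJ.subset ?_
        intro x hx
        refine ⟨hs (Finset.mem_insert_of_mem hx), ?_⟩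
        rintro rfl
        exact he hx
      have h3 := (h1.notMem_closure_iff (by simp)).1 h2
      rw [Finset.coe_insert, Set.union_insert]
      exact h3.1
  exact key I (Finset.Subset.refl I)

theorem ind : S_IND := by
  intro S I h
  obtain ⟨J, hJ⟩ := M.exists_isBasis S (by simp)
  have hind0 := indep_union S I h hJ
  let f : I ⊕ J → ℂ := Sum.elim (fun x => (x : ℂ)) (fun x => (x : ℂ))
  have hdis : ∀ x ∈ I, x ∉ J := fun x hx hxJ =>
    h x (Finset.mem_coe.2 hx) (cl_self (Or.inl (hJ.subset hxJ)))
  have hinj : Function.Injective f := by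
    rintro (x | x) (y | y) hxy
    · exact congrArg Sum.inl (Subtype.ext hxy)
    · exact absurd (show (x : ℂ) ∈ J from (show (x : ℂ) = y from hxy) ▸ y.2) (hdis _ x.2)
    · exact absurd (show (y : ℂ) ∈ J from (show (x : ℂ) = y from hxy) ▸ x.2) (hdis _ y.2)
    · exact congrArg Sum.inr (Subtype.ext hxy)
  have hr : range f = J ∪ (I : Set ℂ) := by
    ext x
    constructor
    · rintro ⟨y | y, rfl⟩
      · exact Or.inr y.2
      · exact Or.inl y.2
    · rintro (hx | hx)
      · exact ⟨Sum.inr ⟨x, hx⟩, rfl⟩
      · exact ⟨Sum.inl ⟨x, hx⟩, rfl⟩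
  have hind : M.Indep (range f) := by rw [hr]; exact hind0
  have hf : AlgebraicIndependent ℚ f := by
    have h5 : AlgebraicIndependent ℚ ((↑) : range f → ℂ) := hind
    exact (algebraicIndependent_subtype_range hinj).1 h5
  have h6 := (AlgebraicIndependent.sumElim_iff.1 hf).2
  have hrI : range (fun x : J => (x:ℂ)) = J := by simp
  let R0 := Algebra.adjoin ℚ (range (fun x : J => (x:ℂ)))
  let S' := clF S
  have hle : R0 ≤ S'.toSubalgebra := by
    refine Algebra.adjoin_le ?_
    rw [hrI]
    intro x hx
    exact mem_cl.1 (cl_self (hJ.subset hx))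
  let _ : Algebra R0 S' := (Subalgebra.inclusion hle).toAlgebra
  have : IsScalarTower R0 S' ℂ := .of_algebraMap_eq fun _ => rfl
  have : Algebra.IsAlgebraic R0 S' := by
    refine ⟨fun x => ?_⟩
    rw [← isAlgebraic_algHom_iff (IsScalarTower.toAlgHom R0 S' ℂ) Subtype.val_injective]
    change IsAlgebraic R0 (x : ℂ)
    have hx : (x : ℂ) ∈ M.closure S := mem_cl.2 x.2
    rw [← hJ.closure_eq_closure, AlgebraicIndependent.matroid_closure_eq] at hx
    have h7 : IsAlgebraic (Algebra.adjoin ℚ J) (x : ℂ) := by
      exact hx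
    have h8 : R0 = Algebra.adjoin ℚ J := by
      simp only [R0, hrI]
    rw [h8]
    exact h7
  exact AlgebraicIndependent.extendScalars S' h6

end Pool.Agent.Helper93.HS
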